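import Pool.Agent.Helper492_MA.Ext

/-!
# Automorphism groups of groups with an abelian normal subgroup

`C` is any class of groups with the closure properties `ClosedE C` which contains the solvable groups. All
this is published for the class of the groups that satisfy the K-theoretic Farrell-Jones conjecture with
coefficients in additive categories and finite wreath products. This class contains the groups `GLₘ(ℚ)` and
`GLₘ(𝔽_p(t))` (Rüping).

(1) Let the group `S` act faithfully by automorphisms of a group `G` which preserve a normal subgroup `N`. If
the images of `S` in `Aut(N)` and in `Aut(G/N)` are in `C`, then `S` is in `C`. So `Aut(G)` is in `C` if `N` is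
characteristic and `Aut(N)`, `Aut(G/N)` are in `C`.

(2) Suppose that `N` is abelian and a finitely generated module over a commutative ring `R` which is
generated by scalars by which elements of `G` act on `N` by conjugation (for example `G` metabelian, `N` an
abelian normal subgroup which contains the commutator subgroup and is finitely generated as a normal
subgroup, `R = ℤ[G/N]`), such that for every weakly associated prime `Q` the domain `R/Q` embeds into an
algebraic extension of a field `F` with `GLₘ(F)` in `C` for all `m`. Suppose that `s(g)` and `g` act in the
same way on `N` for all `s` in `S` and `g` in `G`, and that the image of `S` in `Aut(G/N)` is in `C`. Then `S`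
is in `C`. This applies to the group of all automorphisms of `G` that induce the identity on `G/N`.

Outline of the proof. An automorphism `u` which is trivial on `N` and on `G/N` is given by `u(g) = g d(g)`
with `d(g)` in `N`, and `d(g)` commutes with `N`, because `u` fixes `g x g⁻¹` for `x` in `N`. Hence these
automorphisms commute with each other, and (1) follows as extensions by abelian groups do not lead out of
`C`. In (2) the group `S` acts on `N` by `R`-linear automorphisms, and
`MP_9d1ffa_al.ModuleAutomorphisms` applies.
-/

set_option autoImplicit false

namespace Pool.Agent.Results.MP_6374fb_al.AutomorphismsOfExtensions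

open Pool.Agent.Y110.FJ Pool.Agent.Helper492_MA

/-- statement (1) -/
def ExtensionCase (C : ∀ (G : Type) [Group G], Prop) : Prop :=
  ∀ (G S : Type) [Group G] [Group S] (φ : S →* MulAut G), Function.Injective φ →
    ∀ (N : Subgroup G) [N.Normal] (h : Inv φ N),
      C (onSub φ N h).range → C (onQuot φ N h).range → C S

/-- statement (2) -/
def ModuleCase (C : ∀ (G : Type) [Group G], Prop) : Prop :=
  ∀ (G S R M : Type) [Group G] [Group S] [CommRing R] [AddCommGroup M] [Module R M] [Module.Finite R M]
    (φ : S →* MulAut G), Function.Injective φ → ∀ (N : Subgroup G) [N.Normal] (h : Inv φ N)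
    (e : Multiplicative M ≃* N), ConjRing R M G N e →
    (∀ (s : S) (g : G), ∀ x ∈ N, φ s g * x * (φ s g)⁻¹ = g * x * g⁻¹) →
    (∀ Q ∈ wAss R M, Lin C (R ⧸ Q)) → C (onQuot φ N h).range → C S

theorem result (C : ∀ (G : Type) [Group G], Prop) (hC : ClosedE C)
    (hS : ∀ (S : Type) [Group S], Group.IsSolvable S → C S) : ExtensionCase C ∧ ModuleCase C := by
  refine ⟨?_, ?_⟩
  · intro G S _ _ φ hφ N _ h h1 h2
    exact aut_ext hC hS φ hφ N h h1 h2
  · intro G S R M _ _ _ _ _ _ φ hφ N _ h e hgen hcen hM h2
    exact aut_mod hC hS φ hφ N h e hgen hcen hM h2

end Pool.Agent.Results.MP_6374fb_al.AutomorphismsOfExtensions
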